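import Pool.Agent.L5helper98.CG.Defs
import Pool.Agent.L5helper76.CG.FPSD

/-!
# The finite dimensional laws of the fields
-/

set_option autoImplicit false

open MeasureTheory ProbabilityTheory Filter Topology Set
open scoped ENNReal RealInnerProductSpace Matrix

namespace Pool.Agent.L5helper34.CG

open Pool.Agent.L5helper98.CG

/-- translation of a Gaussian vector -/
theorem gauss_translate {n : ℕ} (m : EuclideanSpace ℝ (Fin n)) (C : Matrix (Fin n) (Fin n) ℝ) :
    multivariateGaussian m C = (multivariateGaussian 0 C).map (fun y => m + y) := by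
  unfold multivariateGaussian
  rw [Measure.map_map (measurable_const_add m) (by fun_prop)]
  congr 1
  funext x
  simp

theorem marlaw (c : Bool) (r : ℝ → ℝ) (μ ε : ℝ) (Ω : Type) [MeasurableSpace Ω] (P : Measure Ω)
    [IsProbabilityMeasure P] (ω : ℝ → Ω → ℝ) (hF : Field c r μ ε P ω) (n : ℕ) (t : Fin n → ℝ)
    (ht : ∀ i, t i ∈ Ico (0:ℝ) 1) (G : (Fin n → ℝ) → ℝ≥0∞) (hG : Measurable G) :
    ∫⁻ x, G (fun i => ω (t i) x) ∂P =
      ∫⁻ y : EuclideanSpace ℝ (Fin n), G (fun i => y i - cv r μ ε (dst c (t i) (t i)) / 2)
        ∂(multivariateGaussian 0 (fun i j => cv r μ ε (dst c (t i) (t j)))) := by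
  classical
  set C : Matrix (Fin n) (Fin n) ℝ := fun i j => cv r μ ε (dst c (t i) (t j)) with hC
  have hpsd : C.PosSemidef := Pool.Agent.L5helper76.CG.FPSD_holds c r μ ε Ω P ω hF n t ht
  have hg : IsGaussianProcess (fun i : Fin n => ω (t i)) P :=
    hF.gauss.comp_right (fun i : Fin n => (⟨t i, ht i⟩ : Ico (0 : ℝ) 1))
  have h1 := hg.hasGaussianLaw Finset.univ
  set X : Ω → EuclideanSpace ℝ (Fin n) := fun x => WithLp.toLp 2 (fun i => ω (t i) x) with hXdef
  have hX : HasGaussianLaw X P := by
    let L : (({i // i ∈ (Finset.univ : Finset (Fin n))}) → ℝ) →L[ℝ] EuclideanSpace ℝ (Fin n) :=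
      ((EuclideanSpace.equiv (Fin n) ℝ).symm : (Fin n → ℝ) →L[ℝ] EuclideanSpace ℝ (Fin n)).comp
        (ContinuousLinearMap.pi fun i => ContinuousLinearMap.proj
          (⟨i, Finset.mem_univ i⟩ : {i // i ∈ (Finset.univ : Finset (Fin n))}))
    have := h1.map L
    exact this
  have hmeas : Measurable X := by
    have h2 : ∀ i, Measurable (ω (t i)) := fun i =>
      hF.meas.comp (measurable_const.prodMk measurable_id)
    exact (WithLp.measurable_toLp 2 _).comp (measurable_pi_lambda _ h2)
  have hcomp : ∀ i, (fun u : EuclideanSpace ℝ (Fin n) => ⟪EuclideanSpace.basisFun (Fin n) ℝ i, u⟫) =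
      fun u => u i := by
    intro i; ext u; simp [PiLp.inner_apply]
  set m : EuclideanSpace ℝ (Fin n) := WithLp.toLp 2 (fun i => -(C i i / 2)) with hm
  have := hX.isGaussian_map
  have hint : ∀ i, ∫ x, ω (t i) x ∂P = -(C i i / 2) := by
    intro i
    have hmi : AEMeasurable (ω (t i)) P :=
      (show Measurable (ω (t i)) from
        hF.meas.comp (measurable_const.prodMk measurable_id)).aemeasurable
    have h5 : Var[ω (t i); P] = C i i := by
      rw [← covariance_self hmi, hF.cov (t i) (ht i) (t i) (ht i)]
    rw [hF.mean (t i) (ht i), h5]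
    ring
  have hlaw : P.map X = multivariateGaussian m C := by
    apply IsGaussian.ext
    · rw [integral_id_multivariateGaussian', integral_map hmeas.aemeasurable (by fun_prop)]
      simp only [id_eq]
      ext i
      have h3 := ContinuousLinearMap.integral_comp_comm (EuclideanSpace.proj (𝕜 := ℝ) i)
        hX.integrable
      simp only [EuclideanSpace.coe_proj] at h3
      rw [← h3]
      simp only [hXdef, hm]
      exact hint i
    · rw [← ContinuousLinearMap.toBilinForm_inj]
      refine LinearMap.BilinForm.ext_basis (EuclideanSpace.basisFun (Fin n) ℝ).toBasis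
        fun i j ↦ ?_
      rw [ContinuousLinearMap.toBilinForm_apply, ContinuousLinearMap.toBilinForm_apply,
        covarianceBilin_multivariateGaussian hpsd, covarianceBilin_apply_eq_cov, covariance_map]
      · have h4 : ∀ i, ((fun u : EuclideanSpace ℝ (Fin n) =>
            ⟪(EuclideanSpace.basisFun (Fin n) ℝ).toBasis i, u⟫) ∘ X) = ω (t i) := by
          intro i
          ext x
          simp [PiLp.inner_apply, hXdef]
        rw [h4, h4, hF.cov (t i) (ht i) (t j) (ht j)]
        have h6 : cv r μ ε (dst c (t i) (t j)) = C i j := rfl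
        rw [h6]
        simp
      any_goals exact Measurable.aestronglyMeasurable (by fun_prop)
      · exact hmeas.aemeasurable
      · exact IsGaussian.memLp_two_id
  have hGm : Measurable (fun y : EuclideanSpace ℝ (Fin n) => G (fun i => y i)) :=
    hG.comp (measurable_pi_lambda _ fun i => by fun_prop)
  calc ∫⁻ x, G (fun i => ω (t i) x) ∂P
      = ∫⁻ y, G (fun i => y i) ∂(P.map X) := by
        rw [lintegral_map hGm hmeas]
    _ = ∫⁻ y, G (fun i => (m + y) i) ∂(multivariateGaussian 0 C) := by
        rw [hlaw, gauss_translate, lintegral_map hGm (measurable_const_add m)]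
    _ = _ := by
        congr 1
        funext y
        congr 1
        funext i
        simp only [hm, PiLp.add_apply]
        ring

end Pool.Agent.L5helper34.CG
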